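import Mathlib
import Pool.Agent.X23.AsLim

/-!
# No injective compact operator is an asymptotic limit of a power bounded operator
-/

open scoped InnerProductSpace ComplexOrder BoundedContinuousFunction

namespace Pool.Agent.Results.MP_f651fd_an.NoInjectiveCompact

open Pool.Agent.X23.AsLim

/-- If `A` is compact and is the asymptotic limit, for a Banach limit `L`, of a power bounded
operator on an infinite-dimensional complex Hilbert space, then `A` is not injective. -/
theorem result {H : Type*} [NormedAddCommGroup H] [InnerProductSpace ℂ H] [CompleteSpace H]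
    (hinf : ¬ FiniteDimensional ℂ H) (L : (ℕ →ᵇ ℂ) →ₗ[ℂ] ℂ) (hL : IsBanachLimit L)
    (T A : H →L[ℂ] H) (hT : PowerBounded T) (hA : IsAsymptoticLimit L T A)
    (hcomp : IsCompactOperator A) : ¬ Function.Injective A := by
  intro hinj
  obtain ⟨M, hM⟩ := hT
  have hpos : A.IsPositive := isPositive hM hL hA
  have hnn : (0 : H →L[ℂ] H) ≤ A := (ContinuousLinearMap.nonneg_iff_isPositive A).mpr hpos
  set R : H →L[ℂ] H := CFC.sqrt A with hR
  have hRR : R * R = A := CFC.sqrt_mul_sqrt_self A hnn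
  have hRRa : ∀ x, R (R x) = A x := fun x => by rw [← hRR]; rfl
  have hRpos : R.IsPositive := (ContinuousLinearMap.nonneg_iff_isPositive R).mp (CFC.sqrt_nonneg A)
  have hRsymm : ∀ x y : H, (inner ℂ (R x) y : ℂ) = inner ℂ x (R y) := by
    intro x y
    exact hRpos.isSymmetric x y
  have hRA : ∀ x y : H, (inner ℂ (R x) (R y) : ℂ) = inner ℂ x (A y) := by
    intro x y
    rw [hRsymm, hRRa]
  have hRinj : Function.Injective R := by
    intro x y hxy
    apply hinj
    rw [← hRRa, ← hRRa, hxy]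
  obtain ⟨m, q, hq, hqa⟩ := compact_approx hcomp (ε := 1 / 4) (by norm_num)
  obtain ⟨N, hN⟩ := exists_nat_gt (1 + 2 * m * (m + 1) * ‖R‖ ^ 2 : ℝ)
  obtain ⟨u, hu⟩ := exists_orthonormal_image hinf R hRinj N
  have hAu : ∀ k, (inner ℂ (u k) (A (u k)) : ℂ) = 1 := by
    intro k
    rw [← hRA]
    have := hu.1 k
    rw [inner_self_eq_norm_sq_to_K, this]
    simp
  obtain ⟨n, hn⟩ := exists_index hM hL hA u (c := N + 1) (by
    simp [hAu])
  set z : Fin N → H := fun k => (T ^ n) (u k) with hz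
  have hzA : ∀ j k, (inner ℂ (z j) (A (z k)) : ℂ) = inner ℂ (u j) (A (u k)) := by
    intro j k
    exact invariant_pow hM hL hA n (u k) (u j)
  have hRz : Orthonormal ℂ (fun k => R (z k)) := by
    rw [orthonormal_iff_ite]
    intro i j
    have h1 := (orthonormal_iff_ite.mp hu) i j
    rw [hRA] at h1 ⊢
    rw [hzA]
    exact h1
  have hE := est hqa z
  have hsum : ∑ k, (inner ℂ (z k) (A (z k)) : ℂ) = N := by
    simp [hzA, hAu]
  rw [hsum] at hE
  have hterm : ∀ i, ∑ k, ‖(inner ℂ (z k) (q i) : ℂ)‖ * ‖(inner ℂ (q i) (A (z k)) : ℂ)‖ ≤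
      (1 / (4 * (m + 1)) : ℝ) * (N + 1) + (m + 1) * ‖R‖ ^ 2 := by
    intro i
    have hm : (0 : ℝ) < m + 1 := by positivity
    have h1 : ∀ k, ‖(inner ℂ (z k) (q i) : ℂ)‖ * ‖(inner ℂ (q i) (A (z k)) : ℂ)‖ ≤
        (1 / (4 * (m + 1)) : ℝ) * ‖z k‖ ^ 2 + (m + 1) * ‖(inner ℂ (R (z k)) (R (q i)) : ℂ)‖ ^ 2 := by
      intro k
      have ha : ‖(inner ℂ (z k) (q i) : ℂ)‖ ≤ ‖z k‖ := by
        refine le_trans (norm_inner_le_norm _ _) ?_
        rw [hq.1 i, mul_one]
      have hb : ‖(inner ℂ (q i) (A (z k)) : ℂ)‖ = ‖(inner ℂ (R (z k)) (R (q i)) : ℂ)‖ := by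
        rw [← hRA, ← inner_conj_symm, Complex.norm_conj]
      rw [hb]
      set a := ‖(inner ℂ (z k) (q i) : ℂ)‖
      set b := ‖(inner ℂ (R (z k)) (R (q i)) : ℂ)‖
      have ha0 : 0 ≤ a := norm_nonneg _
      have hb0 : 0 ≤ b := norm_nonneg _
      have h2 : a * b ≤ ‖z k‖ * b := mul_le_mul_of_nonneg_right ha hb0
      refine le_trans h2 ?_
      have h3 : 0 ≤ (‖z k‖ / (2 * (m + 1)) - b) ^ 2 * (m + 1) := by positivity
      have h4 : (‖z k‖ / (2 * (m + 1)) - b) ^ 2 * (m + 1) =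
          (1 / (4 * (m + 1)) : ℝ) * ‖z k‖ ^ 2 + (m + 1) * b ^ 2 - ‖z k‖ * b := by
        field_simp
        ring
      linarith
    refine le_trans (Finset.sum_le_sum (fun k _ => h1 k)) ?_
    rw [Finset.sum_add_distrib, ← Finset.mul_sum, ← Finset.mul_sum]
    refine add_le_add ?_ ?_
    · exact mul_le_mul_of_nonneg_left hn (by positivity)
    · refine mul_le_mul_of_nonneg_left ?_ hm.le
      refine le_trans (hRz.sum_inner_products_le (R (q i))) ?_
      have : ‖R (q i)‖ ≤ ‖R‖ := by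
        have := R.le_opNorm (q i)
        rwa [hq.1 i, mul_one] at this
      exact pow_le_pow_left₀ (norm_nonneg _) this 2
  have hE2 : (N : ℝ) ≤ 1 / 4 * (N + 1) + m * ((1 / (4 * (m + 1)) : ℝ) * (N + 1) +
      (m + 1) * ‖R‖ ^ 2) := by
    have h5 : ‖(N : ℂ)‖ = N := by simp
    rw [h5] at hE
    refine le_trans hE ?_
    refine add_le_add ?_ ?_
    · exact mul_le_mul_of_nonneg_left hn (by norm_num)
    · refine le_trans (Finset.sum_le_sum (fun i _ => hterm i)) ?_
      rw [Finset.sum_const, Finset.card_univ, Fintype.card_fin, nsmul_eq_mul]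
  have hm : (0 : ℝ) < m + 1 := by positivity
  have h6 : (m : ℝ) * (1 / (4 * (m + 1)) * (N + 1)) ≤ 1 / 4 * (N + 1) := by
    have : (m : ℝ) * (1 / (4 * (m + 1)) * (N + 1)) = (m / (m + 1)) * (1 / 4 * (N + 1)) := by
      field_simp
    rw [this]
    have h7 : (m : ℝ) / (m + 1) ≤ 1 := by
      rw [div_le_one hm]
      linarith
    have h8 : (0 : ℝ) ≤ 1 / 4 * (N + 1) := by positivity
    nlinarith
  nlinarith

end Pool.Agent.Results.MP_f651fd_an.NoInjectiveCompact
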